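import Pool.Agent.W425.GN.Defs3
import Pool.Agent.W273.GN.G1

set_option autoImplicit false

/-! # Groebner bases of a left ideal plus the multiples of one element by polynomials -/

namespace Pool.Agent.W320.GN.G2

open MvPolynomial Pool.Agent.W425.GN Pool.Agent.W273.GN.G1

/-- exponents in the `x_i` -/
noncomputable def ex {n : ℕ} (γ : Fin n →₀ ℕ) : Sy n →₀ ℕ :=
  γ.mapDomain (some ∘ Sum.inl : Fin n → Sy n)

theorem inj (n : ℕ) : Function.Injective (some ∘ Sum.inl : Fin n → Sy n) :=
  (Option.some_injective _).comp Sum.inl_injective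

theorem ex_none {n : ℕ} (γ : Fin n →₀ ℕ) : ex γ none = 0 := by
  unfold ex
  refine Finsupp.mapDomain_of_notMem_range _ _ ?_
  rintro ⟨i, hi⟩
  simp at hi

theorem ex_inr {n : ℕ} (γ : Fin n →₀ ℕ) (i : Fin n) : ex γ (some (Sum.inr i)) = 0 := by
  unfold ex
  refine Finsupp.mapDomain_of_notMem_range _ _ ?_
  rintro ⟨i, hi⟩
  simp at hi

theorem ex_inl {n : ℕ} (γ : Fin n →₀ ℕ) (i : Fin n) : ex γ (some (Sum.inl i)) = γ i := by
  unfold ex
  exact Finsupp.mapDomain_apply (inj n) γ i

theorem wt_ex {n : ℕ} (γ : Fin n →₀ ℕ) : wt (ex γ) = 0 := by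
  unfold wt
  rw [ex_none, Finset.sum_eq_zero fun i _ => ex_inr γ i, add_zero]

theorem wt_add {n : ℕ} (a b : Sy n →₀ ℕ) : wt (a + b) = wt a + wt b := by
  unfold wt
  simp only [Finsupp.add_apply, Finset.sum_add_distrib]
  ring

theorem wt_px {n : ℕ} {R : Type} [CommRing R] (t : MvPolynomial (Fin n) R) (u : Sy n →₀ ℕ)
    (hu : u ∈ (px t).support) : wt u = 0 := by
  rw [mem_support_iff] at hu
  obtain ⟨v, hv, -⟩ := coeff_rename_ne_zero _ _ _ hu
  rw [← hv]
  exact wt_ex v

theorem wt_mul {n : ℕ} {R : Type} [CommRing R] (t : MvPolynomial (Fin n) R)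
    (c : MvPolynomial (Sy n) R) (w0 : ℕ) (hw : ∀ u ∈ c.support, wt u ≤ w0) (u : Sy n →₀ ℕ)
    (hu : u ∈ (px t * c).support) : wt u ≤ w0 := by
  classical
  have h1 := support_mul (px t) c hu
  rw [Finset.mem_add] at h1
  obtain ⟨a, ha, b, hb, rfl⟩ := h1
  rw [wt_add, wt_px t a ha, zero_add]
  exact hw b hb

/-- the retraction to the polynomials in the `x_i` -/
noncomputable def ret {n : ℕ} {R : Type} [CommRing R] :
    MvPolynomial (Sy n) R →ₐ[R] MvPolynomial (Fin n) R :=
  aeval fun v => match v with
    | none => 0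
    | some (Sum.inl i) => X i
    | some (Sum.inr _) => 0

theorem ret_px {n : ℕ} {R : Type} [CommRing R] (t : MvPolynomial (Fin n) R) : ret (px t) = t := by
  unfold ret px
  rw [aeval_rename]
  exact aeval_X_left_apply t

theorem ret_map {n : ℕ} {R K : Type} [CommRing R] [CommRing K] (ι : R →+* K)
    (T : MvPolynomial (Sy n) R) : map ι (ret T) = ret (map ι T) := by
  induction T using MvPolynomial.induction_on with
  | C a => simp [ret, algebraMap_eq]
  | add p q hp hq => simp only [map_add, hp, hq]
  | mul_X p v hp =>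
    rw [map_mul, map_mul, hp, map_mul, map_mul]
    congr 1
    rw [map_X]
    unfold ret
    rw [aeval_X, aeval_X]
    rcases v with _ | i | i
    · exact map_zero _
    · exact map_X _ _
    · exact map_zero _

theorem map_px {n : ℕ} {R K : Type} [CommRing R] [CommRing K] (ι : R →+* K)
    (t : MvPolynomial (Fin n) R) : map ι (px t) = px (map ι t) := by
  unfold px
  exact map_rename ι _ t

theorem px_mul {n : ℕ} {R : Type} [CommRing R] (a b : MvPolynomial (Fin n) R) :
    px (a * b) = px a * px b := map_mul _ _ _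

theorem px_add {n : ℕ} {R : Type} [CommRing R] (a b : MvPolynomial (Fin n) R) :
    px (a + b) = px a + px b := map_add _ _ _

theorem px_C {n : ℕ} {R : Type} [CommRing R] (a : R) :
    px (C a : MvPolynomial (Fin n) R) = C a := by
  unfold px
  exact rename_C _ _

theorem px_X {n : ℕ} {R : Type} [CommRing R] (i : Fin n) :
    px (X i : MvPolynomial (Fin n) R) = X (some (Sum.inl i)) := by
  unfold px
  exact rename_X _ _

theorem px_mon {n : ℕ} {R : Type} [CommRing R] (γ : Fin n →₀ ℕ) :
    px (monomial γ (1 : R)) = monomial (ex γ) 1 := by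
  unfold px
  exact rename_monomial _ _ _

theorem px_mem {n : ℕ} {R : Type} [CommRing R] {M : Submodule R (MvPolynomial (Sy n) R)}
    (hM : Stab M) (q : MvPolynomial (Fin n) R) : ∀ P ∈ M, px q * P ∈ M := by
  induction q using MvPolynomial.induction_on with
  | C a =>
    intro P hP
    rw [px_C, ← smul_eq_C_mul]
    exact M.smul_mem a hP
  | add p q hp hq =>
    intro P hP
    rw [px_add, add_mul]
    exact M.add_mem (hp P hP) (hq P hP)
  | mul_X p i hp =>
    intro P hP
    rw [px_mul, px_X, mul_assoc]
    exact hp _ ((hM P hP).2 i).1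

theorem mon_monomial {n : ℕ} {m : MonomialOrder (Sy n)} {R : Type} [CommRing R]
    {P : MvPolynomial (Sy n) R} {d : Sy n →₀ ℕ} (e : Sy n →₀ ℕ) (hP : Mon m P d) :
    Mon m (monomial e (1 : R) * P) (d + e) := by
  constructor
  · rw [coeff_monomial_mul', if_pos le_add_self, add_tsub_cancel_right, one_mul]
    exact hP.1
  · intro u hu
    rw [mem_support_iff, coeff_monomial_mul'] at hu
    by_cases h1 : e ≤ u
    · rw [if_pos h1, one_mul] at hu
      have h2 := hP.2 (u - e) (mem_support_iff.2 hu)
      have h3 : m.toSyn u = m.toSyn (u - e) + m.toSyn e := by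
        rw [← map_add, tsub_add_cancel_of_le h1]
      rw [h3, map_add]
      exact add_le_add_left h2 _
    · rw [if_neg h1] at hu
      exact absurd rfl hu

/-- the parts of the exponents in `s` and the `∂_i` -/
def part {n : ℕ} (d : Sy n →₀ ℕ) : Option (Fin n) → ℕ
  | none => d none
  | some i => d (some (Sum.inr i))

theorem part_le {n : ℕ} (d : Sy n →₀ ℕ) (o : Option (Fin n)) : part d o ≤ wt d := by
  unfold wt
  rcases o with _ | i
  · exact Nat.le_add_right _ _
  · change d (some (Sum.inr i)) ≤ _
    have := Finset.single_le_sum (f := fun i : Fin n => d (some (Sum.inr i)))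
      (fun _ _ => Nat.zero_le _) (Finset.mem_univ i)
    exact this.trans (Nat.le_add_left _ _)

theorem part_eq {n : ℕ} {d f : Sy n →₀ ℕ} (h : ∀ o, part d o = part f o) (hle : f ≤ d) :
    ∃ γ : Fin n →₀ ℕ, d = f + ex γ := by
  refine ⟨Finsupp.equivFunOnFinite.symm fun i => d (some (Sum.inl i)) - f (some (Sum.inl i)), ?_⟩
  ext v
  rw [Finsupp.add_apply]
  rcases v with _ | i | i
  · rw [ex_none, add_zero]
    exact h none
  · rw [ex_inl]
    have := hle (some (Sum.inl i))
    change d (some (Sum.inl i)) = f (some (Sum.inl i)) +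
      (d (some (Sum.inl i)) - f (some (Sum.inl i)))
    omega
  · rw [ex_inr, add_zero]
    exact h (some i)

/-- Dickson's lemma in the `x_i` -/
theorem dickson2 {n : ℕ} (S : Set (Sy n →₀ ℕ)) (w0 : ℕ) : ∃ F : Finset (Sy n →₀ ℕ),
    (∀ f ∈ F, f ∈ S) ∧ ∀ d ∈ S, wt d ≤ w0 → ∃ f ∈ F, ∃ γ : Fin n →₀ ℕ, d = f + ex γ := by
  classical
  have h1 := fun β : Option (Fin n) → Fin (w0 + 1) =>
    dickson {d : Sy n →₀ ℕ | d ∈ S ∧ ∀ o, part d o = (β o : ℕ)}
  choose F hF1 hF2 using h1
  refine ⟨Finset.univ.biUnion F, ?_, ?_⟩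
  · intro f hf
    obtain ⟨β, -, h2⟩ := Finset.mem_biUnion.1 hf
    exact (hF1 β f h2).1
  · intro d hd hw
    let β : Option (Fin n) → Fin (w0 + 1) := fun o =>
      ⟨part d o, Nat.lt_succ_of_le ((part_le d o).trans hw)⟩
    obtain ⟨f, hf, hfd⟩ := hF2 β d ⟨hd, fun o => rfl⟩
    refine ⟨f, Finset.mem_biUnion.2 ⟨β, Finset.mem_univ _, hf⟩, ?_⟩
    exact part_eq (fun o => ((hF1 β f hf).2 o).symm) hfd

/-- the Groebner basis for one monomial order -/
theorem main_order {n : ℕ} (m : MonomialOrder (Sy n))
    (hm : ∀ d d' : Sy n →₀ ℕ, wt d < wt d' → m.toSyn d < m.toSyn d') {K : Type} [Field K]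
    (I : Submodule K (MvPolynomial (Sy n) K)) (c : MvPolynomial (Sy n) K) (_ : Stab I) :
    ∃ (B : Set (Sy n →₀ ℕ)) (G : Finset (MvPolynomial (Sy n) K)),
    (∀ P ∈ I, ∀ t : MvPolynomial (Fin n) K,
      (∀ m ∈ (P + px t * c).support, m ∈ B) → P + px t * c = 0) ∧
    ∀ {R : Type} [CommRing R] (ι : R →+* K), Function.Injective ι →
      (∀ P ∈ G, ∃ P', MvPolynomial.map ι P' = P) →
      ∀ c' : MvPolynomial (Sy n) R, MvPolynomial.map ι c' = c →
      ∀ M : Submodule R (MvPolynomial (Sy n) R), Stab M →
      (∀ P', MvPolynomial.map ι P' ∈ G → MvPolynomial.map ι P' ∈ I → P' ∈ M) →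
      ∀ W : MvPolynomial (Sy n) R, ∃ (Q : MvPolynomial (Sy n) R) (t : MvPolynomial (Fin n) R),
        (∀ m ∈ Q.support, m ∈ B) ∧ W - Q - px t * c' ∈ M := by
  classical
  set in1 : Set (Sy n →₀ ℕ) := {d | ∃ P ∈ I, Mon m P d} with hin1
  set in2 : Set (Sy n →₀ ℕ) := {d | ∃ P ∈ I, ∃ t : MvPolynomial (Fin n) K,
    Mon m (P + px t * c) d} with hin2
  obtain ⟨w0, hw0⟩ : ∃ w0, ∀ u ∈ c.support, wt u ≤ w0 :=
    ⟨c.support.sup wt, fun u hu => Finset.le_sup (f := wt) hu⟩
  have hkey : ∀ d ∈ in2, d ∉ in1 → wt d ≤ w0 := by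
    rintro d ⟨P, hP, t, h1⟩ h2
    by_contra h3
    apply h2
    refine ⟨P, hP, ?_, ?_⟩
    · have h4 : (px t * c).coeff d = 0 := by
        by_contra h
        exact h3 (wt_mul t c w0 hw0 d (mem_support_iff.2 h))
      have h5 := h1.1
      rwa [coeff_add, h4, add_zero] at h5
    · intro u hu
      by_cases h4 : u ∈ (px t * c).support
      · exact (hm u d (lt_of_le_of_lt (wt_mul t c w0 hw0 u h4) (not_le.1 h3))).le
      · refine h1.2 u ?_
        rw [mem_support_iff, coeff_add, notMem_support_iff.1 h4, add_zero]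
        exact mem_support_iff.1 hu
  obtain ⟨F, hF1, hF2⟩ := dickson in1
  have hF1' : ∀ f : F, ∃ P ∈ I, Mon m P f.1 := fun f => hF1 f.1 f.2
  choose p hp1 hp2 using hF1'
  obtain ⟨F', hF'1, hF'2⟩ := dickson2 in2 w0
  have hF'1' : ∀ f : F', ∃ P ∈ I, ∃ t : MvPolynomial (Fin n) K, Mon m (P + px t * c) f.1 :=
    fun f => hF'1 f.1 f.2
  choose p' hp'1 t' ht' using hF'1'
  refine ⟨in2ᶜ, Finset.univ.image p ∪ (Finset.univ.image p' ∪ Finset.univ.image fun f => px (t' f)),
    ?_, ?_⟩
  · intro P hP t hs
    by_contra h0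
    obtain ⟨d, a, h1, h2⟩ := exists_mon (m := m) h0
    refine hs d h1 ⟨a • P, I.smul_mem a hP, C a * t, ?_⟩
    rw [px_mul, px_C, mul_assoc, ← smul_eq_C_mul, ← smul_add]
    exact h2
  · intro R _ ι hι hG c' hc' M hM hGM W
    have hmonι : ∀ (P' : MvPolynomial (Sy n) R) (f : Sy n →₀ ℕ), Mon m (map ι P') f →
        Mon m P' f := by
      intro P' f h3
      refine ⟨?_, ?_⟩
      · have h4 := h3.1
        rw [coeff_map] at h4
        exact hι (h4.trans (map_one ι).symm)
      · intro u hu
        refine h3.2 u ?_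
        rw [mem_support_iff] at hu ⊢
        rw [coeff_map]
        intro h4
        exact hu (hι (h4.trans (map_zero ι).symm))
    -- division
    have key : ∀ t : m.syn, ∀ W : MvPolynomial (Sy n) R, (∀ u ∈ W.support, m.toSyn u < t) →
        ∃ (Q : MvPolynomial (Sy n) R) (q : MvPolynomial (Fin n) R),
          (∀ u ∈ Q.support, u ∈ in2ᶜ) ∧ W - Q - px q * c' ∈ M := by
      intro t
      induction t using WellFoundedLT.induction with
      | ind t ih =>
        intro W hW
        by_cases h0 : W = 0
        · refine ⟨0, 0, by simp, ?_⟩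
          have : px (0 : MvPolynomial (Fin n) R) = 0 := map_zero _
          rw [h0, this, sub_zero, zero_mul, sub_zero]
          exact M.zero_mem
        have hd := m.degree_mem_support h0
        set d := m.degree W with hdd
        have hle : ∀ u ∈ W.support, m.toSyn u ≤ m.toSyn d := fun u hu => m.le_degree hu
        -- the new polynomial
        have hnew : ∀ P'' : MvPolynomial (Sy n) R, Mon m P'' d →
            ∀ u ∈ (W - (W.coeff d) • P'').support, m.toSyn u < m.toSyn d := by
          intro P'' hP'' u hu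
          have hne : u ≠ d := by
            rintro rfl
            rw [mem_support_iff, coeff_sub, coeff_smul, smul_eq_mul, hP''.1, mul_one,
              sub_self] at hu
            exact hu rfl
          have hle' : m.toSyn u ≤ m.toSyn d := by
            by_cases h1 : u ∈ W.support
            · exact hle u h1
            · refine hP''.2 u ?_
              rw [mem_support_iff] at hu ⊢
              rw [coeff_sub, notMem_support_iff.mp h1, zero_sub, coeff_smul, smul_eq_mul,
                neg_ne_zero] at hu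
              exact right_ne_zero_of_mul hu
          exact lt_of_le_of_ne hle' fun e => hne (m.toSyn.injective e)
        by_cases hin : d ∈ in1
        · obtain ⟨f, hf, hfd⟩ := hF2 d hin
          have hpG : p ⟨f, hf⟩ ∈ Finset.univ.image p ∪
              (Finset.univ.image p' ∪ Finset.univ.image fun f => px (t' f)) :=
            Finset.mem_union_left _ (Finset.mem_image_of_mem _ (Finset.mem_univ _))
          obtain ⟨P', hP'⟩ := hG _ hpG
          have hP'M : P' ∈ M := hGM P' (by rw [hP']; exact hpG) (by rw [hP']; exact hp1 _)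
          have hmon : Mon m P' f := hmonι P' f (by rw [hP']; exact hp2 ⟨f, hf⟩)
          obtain ⟨P'', h5, h6⟩ := mon_mul hM (d - f) P' f hP'M hmon
          rw [add_tsub_cancel_of_le hfd] at h6
          obtain ⟨Q, q, hQ1, hQ2⟩ := ih (m.toSyn d) (hW d hd) (W - (W.coeff d) • P'') (hnew P'' h6)
          refine ⟨Q, q, hQ1, ?_⟩
          have h7 := M.add_mem hQ2 (M.smul_mem (W.coeff d) h5)
          have h8 : W - (W.coeff d) • P'' - Q - px q * c' + (W.coeff d) • P'' =
            W - Q - px q * c' := by abel
          rwa [h8] at h7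
        · by_cases hin' : d ∈ in2
          · obtain ⟨f, hf, γ, hfγ⟩ := hF'2 d hin' (hkey d hin' hin)
            have hpG : p' ⟨f, hf⟩ ∈ Finset.univ.image p ∪
                (Finset.univ.image p' ∪ Finset.univ.image fun f => px (t' f)) :=
              Finset.mem_union_right _ (Finset.mem_union_left _
                (Finset.mem_image_of_mem _ (Finset.mem_univ _)))
            have htG : px (t' ⟨f, hf⟩) ∈ Finset.univ.image p ∪
                (Finset.univ.image p' ∪ Finset.univ.image fun f => px (t' f)) :=
              Finset.mem_union_right _ (Finset.mem_union_right _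
                (Finset.mem_image_of_mem (fun f => px (t' f)) (Finset.mem_univ _)))
            obtain ⟨P', hP'⟩ := hG _ hpG
            obtain ⟨T, hT⟩ := hG _ htG
            have hP'M : P' ∈ M := hGM P' (by rw [hP']; exact hpG) (by rw [hP']; exact hp'1 _)
            have hr : map ι (ret T) = t' ⟨f, hf⟩ := by
              rw [ret_map, hT, ret_px]
            have hmon : Mon m (P' + px (ret T) * c') f := by
              apply hmonι
              rw [map_add, map_mul, map_px, hr, hP', hc']
              exact ht' ⟨f, hf⟩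
            have h6 := mon_monomial (ex γ) hmon
            rw [← hfγ, ← px_mon] at h6
            obtain ⟨Q, q, hQ1, hQ2⟩ := ih (m.toSyn d) (hW d hd)
              (W - (W.coeff d) • (px (monomial γ (1 : R)) * (P' + px (ret T) * c'))) (hnew _ h6)
            refine ⟨Q, q + C (W.coeff d) * (monomial γ 1 * ret T), hQ1, ?_⟩
            have h7 := M.add_mem hQ2 (M.smul_mem (W.coeff d) (px_mem hM (monomial γ 1) P' hP'M))
            have h8 : W - (W.coeff d) • (px (monomial γ (1 : R)) * (P' + px (ret T) * c')) - Q -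
                px q * c' + (W.coeff d) • (px (monomial γ (1 : R)) * P') =
                W - Q - px (q + C (W.coeff d) * (monomial γ 1 * ret T)) * c' := by
              rw [px_add, px_mul, px_mul, px_C, smul_eq_C_mul, smul_eq_C_mul]
              ring
            rwa [h8] at h7
          · have hmon1 : Mon m (monomial d (1 : R)) d := by
              refine ⟨by simp, ?_⟩
              intro u hu
              rw [mem_support_iff, coeff_monomial] at hu
              by_cases e : d = u
              · rw [e]
              · rw [if_neg e] at hu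
                exact absurd rfl hu
            obtain ⟨Q, q, hQ1, hQ2⟩ := ih (m.toSyn d) (hW d hd)
              (W - (W.coeff d) • monomial d (1 : R)) (hnew _ hmon1)
            refine ⟨Q + (W.coeff d) • monomial d (1 : R), q, ?_, ?_⟩
            · intro u hu
              by_cases h1 : u ∈ Q.support
              · exact hQ1 u h1
              · rw [mem_support_iff, coeff_add, notMem_support_iff.mp h1, zero_add, coeff_smul,
                  coeff_monomial] at hu
                by_cases e : d = u
                · rw [← e]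
                  exact hin'
                · rw [if_neg e, smul_zero] at hu
                  exact absurd rfl hu
            · have h8 : W - (Q + (W.coeff d) • monomial d (1 : R)) - px q * c' =
                  W - (W.coeff d) • monomial d (1 : R) - Q - px q * c' := by abel
              rw [h8]
              exact hQ2
    obtain ⟨Q, q, hQ1, hQ2⟩ := key (m.toSyn (m.degree W + Finsupp.single none 1)) W fun u hu =>
      (m.le_degree hu).trans_lt (lt_add_single _ _)
    exact ⟨Q, q, hQ1, hQ2⟩

theorem main : TaskG2 := by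
  intro hW n K _ I c hI
  obtain ⟨m, hm⟩ := hW n
  exact main_order m hm I c hI

end Pool.Agent.W320.GN.G2
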